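import Mathlib
set_option autoImplicit false
namespace Pool.Agent.H.MP_713d40_gt
open Set Filter Topology TopologicalSpace Cardinal

def col (k : ℕ) : Set (ℕ × ℕ) := {g | g.1 = k}

lemma col_inf (k : ℕ) : (col k).Infinite :=
  infinite_of_injective_forall_mem (f := fun m : ℕ => (k, m))
    (fun _ _ h => (Prod.ext_iff.1 h).2) fun _ => rfl

def AD (𝒜 : Set (Set (ℕ × ℕ))) : Prop :=
  (∀ A ∈ 𝒜, A.Infinite) ∧ ∀ A ∈ 𝒜, ∀ B ∈ 𝒜, A ≠ B → (A ∩ B).Finite

lemma exists_mad : ∃ 𝒜, AD 𝒜 ∧ (∀ k, col k ∈ 𝒜) ∧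
    ∀ S : Set (ℕ × ℕ), S.Infinite → ∃ B ∈ 𝒜, (S ∩ B).Infinite := by
  obtain ⟨𝒜, h1, h2⟩ := zorn_subset_nonempty {𝒜 | AD 𝒜} (fun c hc hch _ => ⟨⋃₀ c, ⟨by
      rintro A ⟨a, ha, hA⟩; exact (hc ha).1 A hA, by
      rintro A ⟨a, ha, hA⟩ B ⟨b, hb, hB⟩ hne
      rcases hch.total ha hb with h | h
      · exact (hc hb).2 A (h hA) B hB hne
      · exact (hc ha).2 A hA B (h hB) hne⟩, fun s hs => subset_sUnion_of_mem hs⟩) (range col)
    ⟨by rintro _ ⟨k, rfl⟩; exact col_inf k, by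
      rintro _ ⟨k, rfl⟩ _ ⟨l, rfl⟩ hne
      refine finite_empty.subset fun g hg => hne ?_
      rw [← (show g.1 = k from hg.1), ← (show g.1 = l from hg.2)]⟩
  refine ⟨𝒜, h2.prop, fun k => h1 ⟨k, rfl⟩, fun S hS => ?_⟩
  by_contra hcon
  push Not at hcon
  have : AD (insert S 𝒜) := ⟨by
    rintro A (rfl | hA); exacts [hS, h2.prop.1 A hA], by
    rintro A (rfl | hA) B (rfl | hB) hne
    · exact absurd rfl hne
    · exact hcon B hB
    · rw [inter_comm]; exact hcon A hA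
    · exact h2.prop.2 A hA B hB hne⟩
  have hm : S ∈ 𝒜 := h2.le_of_ge this (subset_insert _ _) (mem_insert _ _)
  exact hS (by simpa using hcon S hm)

def Psi (𝒜 : Set (Set (ℕ × ℕ))) : Type := (ℕ × ℕ) ⊕ 𝒜

variable {𝒜 : Set (Set (ℕ × ℕ))}

instance : TopologicalSpace (Psi 𝒜) where
  IsOpen U := ∀ A : 𝒜, Sum.inr A ∈ U → ∀ᶠ g in cofinite, g ∈ A.1 → Sum.inl g ∈ U
  isOpen_univ := fun _ _ => Eventually.of_forall fun _ _ => trivial
  isOpen_inter := fun _ _ h1 h2 A hA =>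
    ((h1 A hA.1).and (h2 A hA.2)).mono fun _ h hg => ⟨h.1 hg, h.2 hg⟩
  isOpen_sUnion := fun _ h A ⟨t, ht, hA⟩ => (h t ht A hA).mono fun _ h hg => ⟨t, ht, h hg⟩

lemma open_iff {U : Set (Psi 𝒜)} :
    IsOpen U ↔ ∀ A : 𝒜, Sum.inr A ∈ U → ∀ᶠ g in cofinite, g ∈ A.1 → Sum.inl g ∈ U := Iff.rfl

def nb : Psi 𝒜 × Finset (ℕ × ℕ) → Set (Psi 𝒜)
  | (Sum.inl g, _) => {Sum.inl g}
  | (Sum.inr A, F) => insert (Sum.inr A) (Sum.inl '' (A.1 \ F))

lemma nb_clopen (h : AD 𝒜) (p : Psi 𝒜 × Finset (ℕ × ℕ)) : IsClopen (nb p) := by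
  obtain ⟨x | A, F⟩ := p
  · refine ⟨⟨open_iff.2 fun A _ => ?_⟩, open_iff.2 fun A hA => by cases hA⟩
    refine (eventually_cofinite_ne x).mono fun g hg _ h => hg (Sum.inl_injective h)
  · refine ⟨⟨open_iff.2 fun B hB => ?_⟩, open_iff.2 fun B hB => ?_⟩
    · have hne : A.1 ≠ B.1 := fun e => hB (Or.inl (congrArg Sum.inr (Subtype.ext e.symm)))
      refine ((h.2 _ A.2 _ B.2 hne).eventually_cofinite_notMem).mono fun g hg h1 h2 => hg ?_
      rcases h2 with h2 | ⟨g', h3, h4⟩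
      · cases h2
      · exact ⟨Sum.inl_injective h4 ▸ h3.1, h1⟩
    · rcases hB with hB | ⟨g', _, h4⟩
      · have : B = A := Sum.inr_injective hB
        subst this
        exact F.eventually_cofinite_notMem.mono fun g hg h1 => Or.inr ⟨g, ⟨h1, hg⟩, rfl⟩
      · cases h4

lemma basis (h : AD 𝒜) : IsTopologicalBasis (range (nb (𝒜 := 𝒜))) := by
  refine isTopologicalBasis_of_isOpen_of_nhds (by rintro _ ⟨p, rfl⟩; exact (nb_clopen h p).2) ?_
  rintro (g | A) U hx hU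
  · exact ⟨_, ⟨(Sum.inl g, ∅), rfl⟩, rfl, singleton_subset_iff.2 hx⟩
  · have := open_iff.1 hU A hx
    refine ⟨_, ⟨(Sum.inr A, (Set.Finite.toFinset this)), rfl⟩, Or.inl rfl, ?_⟩
    rintro _ (rfl | ⟨g, hg, rfl⟩)
    · exact hx
    · by_contra hc
      exact hg.2 (by simpa using ⟨hg.1, hc⟩)

lemma t35 (h : AD 𝒜) : T35Space (Psi 𝒜) := by
  have h1 : CompletelyRegularSpace (Psi 𝒜) :=
    CompletelyRegularSpace.of_isTopologicalBasis_clopens ((basis h).of_isOpen_of_subset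
      (fun _ hu => hu.2) (by rintro _ ⟨p, rfl⟩; exact nb_clopen h p))
  have h2 : T0Space (Psi 𝒜) := by
    rw [t0Space_iff_exists_isOpen_xor_mem]
    rintro (x | A) y hne
    · exact ⟨_, (nb_clopen h (Sum.inl x, ∅)).2, Or.inl ⟨rfl, fun e => hne e.symm⟩⟩
    · rcases y with y | B
      · exact ⟨_, (nb_clopen h (Sum.inl y, ∅)).2, Or.inr ⟨rfl, hne⟩⟩
      · refine ⟨_, (nb_clopen h (Sum.inr A, ∅)).2, Or.inl ⟨Or.inl rfl, ?_⟩⟩
        rintro (e | ⟨g, _, e⟩)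
        · exact hne e.symm
        · cases e
  exact {}

lemma card_le : #(range (nb (𝒜 := 𝒜))) ≤ 𝔠 := by
  refine mk_range_le.trans ?_
  have h1 : #𝒜 ≤ 𝔠 := (mk_set_le _).trans (by simp)
  have h2 : #(Psi 𝒜) ≤ 𝔠 := by
    show #((ℕ × ℕ) ⊕ 𝒜) ≤ _
    rw [mk_sum, lift_id, lift_id]
    exact add_le_of_le aleph0_le_continuum (mk_le_aleph0.trans aleph0_le_continuum) h1
  rw [mk_prod, lift_id, lift_id]
  exact mul_le_of_le aleph0_le_continuum h2 (mk_le_aleph0.trans aleph0_le_continuum)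

lemma sigma (h : AD 𝒜) : ∃ N : ℕ → Set (Set (Psi 𝒜)),
    (∀ k, LocallyFinite fun s : N k => (s : Set (Psi 𝒜))) ∧
    ∀ x U, IsOpen U → x ∈ U → ∃ k, ∃ s ∈ N k, x ∈ s ∧ s ⊆ U := by
  obtain ⟨e, he⟩ := exists_surjective_nat (ℕ × ℕ)
  refine ⟨fun k => Nat.casesOn k (range fun A : 𝒜 => {Sum.inr A}) fun k => {{Sum.inl (e k)}},
    ?_, ?_⟩
  · rintro (_ | k)
    · intro x
      refine ⟨nb (x, ∅), (nb_clopen h _).2.mem_nhds (by cases x; exacts [rfl, Or.inl rfl]), ?_⟩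
      apply Set.Subsingleton.finite
      rintro ⟨_, A, rfl⟩ ⟨_, rfl, h1⟩ ⟨_, B, rfl⟩ ⟨_, rfl, h2⟩
      rcases x with x | C
      · cases h1
      · have a1 : A = C := by
          rcases h1 with h1 | ⟨g, _, h1⟩
          · exact Sum.inr_injective h1
          · cases h1
        have a2 : B = C := by
          rcases h2 with h2 | ⟨g, _, h2⟩
          · exact Sum.inr_injective h2
          · cases h2
        subst a1; subst a2; rfl
    · exact locallyFinite_of_finite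
        (ι := ({{Sum.inl (e k)}} : Set (Set (Psi 𝒜)))) _
  · rintro (g | A) U _ hx
    · obtain ⟨k, rfl⟩ := he g
      exact ⟨k + 1, _, rfl, rfl, singleton_subset_iff.2 hx⟩
    · exact ⟨0, _, ⟨A, rfl⟩, rfl, singleton_subset_iff.2 hx⟩

lemma no_inj (h : AD 𝒜) (hc : ∀ k, col k ∈ 𝒜)
    (hm : ∀ S : Set (ℕ × ℕ), S.Infinite → ∃ B ∈ 𝒜, (S ∩ B).Infinite)
    {Z : Type} [MetricSpace Z] {j : Psi 𝒜 → Z} (hj : Continuous j) : ¬ Function.Injective j := by
  intro hi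
  have lim : ∀ (A : 𝒜) (ε : ℝ), 0 < ε →
      {g | g ∈ A.1 ∧ ε ≤ dist (j (Sum.inl g)) (j (Sum.inr A))}.Finite := by
    intro A ε hε
    have := open_iff.1 (Metric.isOpen_ball.preimage hj (t := Metric.ball (j (Sum.inr A)) ε)) A
      (Metric.mem_ball_self hε)
    refine Set.Finite.subset this fun g hg h1 => ?_
    exact absurd (h1 hg.1) (not_lt.2 hg.2)
  have acc : ∀ (K : Set ℕ) (F : Set (ℕ × ℕ)), K.Infinite → (∀ k ∈ K, (col k ∩ F).Finite) →
      ∃ (B : 𝒜) (K' : Set ℕ), K' ⊆ K ∧ K'.Infinite ∧ ¬ B.1 ⊆ F ∧ ∀ ε > 0,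
        {k | k ∈ K' ∧ ε ≤ dist (j (Sum.inr ⟨col k, hc k⟩)) (j (Sum.inr B))}.Finite := by
    intro K F hK hF
    have : ∀ k, ∃ g, k ∈ K → g ∈ col k ∧ g ∉ F ∧
        dist (j (Sum.inl g)) (j (Sum.inr ⟨col k, hc k⟩)) < 1 / ((k : ℝ) + 1) := by
      intro k
      by_cases hk : k ∈ K
      · obtain ⟨g, g1, g2⟩ := ((col_inf k).sdiff ((hF k hk).union
          (lim ⟨col k, hc k⟩ (1 / ((k : ℝ) + 1)) (by positivity)))).nonempty
        exact ⟨g, fun _ => ⟨g1, fun h => g2 (Or.inl ⟨g1, h⟩),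
          not_le.1 fun h => g2 (Or.inr ⟨g1, h⟩)⟩⟩
      · exact ⟨(0, 0), fun h => absurd h hk⟩
    choose g hg using this
    have hinj : InjOn g K := fun a ha b hb e => by
      rw [← (show (g a).1 = a from (hg a ha).1), e]; exact (hg b hb).1
    obtain ⟨B, hB, hinf⟩ := hm (g '' K) (hK.image hinj)
    have hK' : {k | k ∈ K ∧ g k ∈ B}.Infinite := fun hf => hinf ((hf.image g).subset (by
      rintro _ ⟨⟨k, hk, rfl⟩, h⟩; exact ⟨k, ⟨hk, h⟩, rfl⟩))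
    refine ⟨⟨B, hB⟩, {k | k ∈ K ∧ g k ∈ B}, fun k hk => hk.1, hK', fun hs => ?_, fun ε hε => ?_⟩
    · obtain ⟨k, hk⟩ := hK'.nonempty
      exact (hg k hk.1).2.1 (hs hk.2)
    · obtain ⟨N, hN⟩ := exists_nat_one_div_lt (half_pos hε)
      have f1 := (lim ⟨B, hB⟩ (ε / 2) (half_pos hε)).image Prod.fst
      refine (f1.union (finite_lt_nat N)).subset fun k hk => ?_
      by_cases hkN : k < N
      · exact Or.inr hkN
      · refine Or.inl ⟨g k, ⟨hk.1.2, ?_⟩, (hg k hk.1.1).1⟩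
        have a1 := (hg k hk.1.1).2.2
        have a2 : 1 / ((k : ℝ) + 1) ≤ 1 / ((N : ℝ) + 1) :=
          Nat.one_div_le_one_div (not_lt.1 hkN)
        have a3 := dist_triangle_left (j (Sum.inr ⟨col k, hc k⟩)) (j (Sum.inr ⟨B, hB⟩))
          (j (Sum.inl (g k)))
        have a4 := hk.2
        linarith
  obtain ⟨B1, K1, -, k1, -, t1⟩ := acc univ ∅ infinite_univ (by simp)
  have hs : {k | col k = B1.1}.Finite := Set.Subsingleton.finite fun a ha b hb => by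
    have : ((a, 0) : ℕ × ℕ) ∈ col b := by
      rw [(show col b = B1.1 from hb), ← (show col a = B1.1 from ha)]; rfl
    exact this
  obtain ⟨B2, K2, s2, k2, n2, t2⟩ := acc (K1 \ {k | col k = B1.1}) B1.1 (k1.sdiff hs)
    fun k hk => h.2 _ (hc k) _ B1.2 hk.2
  have : j (Sum.inr B1) = j (Sum.inr B2) := by
    refine eq_of_forall_dist_le fun ε hε => ?_
    obtain ⟨k, a, b⟩ := (k2.sdiff ((t1 _ (half_pos hε)).union (t2 _ (half_pos hε)))).nonempty
    have b1 := not_le.1 fun h => b (Or.inl ⟨(s2 a).1, h⟩)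
    have b2 := not_le.1 fun h => b (Or.inr ⟨a, h⟩)
    have := dist_triangle_left (j (Sum.inr B1)) (j (Sum.inr B2)) (j (Sum.inr ⟨col k, hc k⟩))
    linarith
  exact n2 (by rw [Sum.inr_injective (hi this)])

universe u

def SCw (M : Type u) [TopologicalSpace M] : Set ((Σ n : ℕ, Fin n → M) → ℝ) :=
  {f | ∀ (n : ℕ) (i : Fin n) (x : Fin n → M),
    Continuous fun t : M => f ⟨n, Function.update x i t⟩}

lemma ext_dense {M : Type u} [TopologicalSpace M] {D : Set M} (hD : Dense D) {f g : SCw M}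
    (h : ∀ n (x : Fin n → M), (∀ i, x i ∈ D) → f.1 ⟨n, x⟩ = g.1 ⟨n, x⟩) : f = g := by
  refine Subtype.ext (funext ?_)
  rintro ⟨n, x⟩
  have : ∀ r, r ≤ n → ∀ x : Fin n → M, (∀ i : Fin n, r ≤ i.1 → x i ∈ D) →
      f.1 ⟨n, x⟩ = g.1 ⟨n, x⟩ := by
    intro r
    induction r with
    | zero => intro _ x hx; exact h n x fun i => hx i (Nat.zero_le _)
    | succ r ih =>
      intro hr x hx
      let i0 : Fin n := ⟨r, hr⟩
      have := Continuous.ext_on hD (f.2 n i0 x) (g.2 n i0 x) fun t ht => ih (by omega) _ (by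
        intro i hi
        by_cases h : i = i0
        · rw [h, Function.update_self]; exact ht
        · rw [Function.update_of_ne h]
          refine hx i ?_
          have : i.1 ≠ r := fun h' => h (Fin.ext h')
          omega)
      simpa using congrFun this (x i0)
  exact this n le_rfl x fun i hi => absurd i.2 (by omega)

theorem main : ∃ (X : Type) (_ : TopologicalSpace X), T35Space X ∧
    (∃ N : ℕ → Set (Set X), (∀ k, LocallyFinite fun s : N k => (s : Set X)) ∧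
      ∀ x U, IsOpen U → x ∈ U → ∃ k, ∃ s ∈ N k, x ∈ s ∧ s ⊆ U) ∧
    (∃ B : Set (Set X), IsTopologicalBasis B ∧ #B ≤ 𝔠) ∧
    ∀ (M : Type u) [TopologicalSpace M] [SeparableSpace M] [MetrizableSpace M],
      ¬ ∃ Φ : X → SCw M, IsEmbedding Φ := by
  obtain ⟨𝒜, h, hc, hm⟩ := exists_mad
  refine ⟨Psi 𝒜, inferInstance, t35 h, sigma h, ⟨_, basis h, card_le⟩, ?_⟩
  rintro M _ _ _ ⟨Φ, hΦ⟩
  obtain ⟨D, hDc, hD⟩ := exists_countable_dense M
  have := hDc.to_subtype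
  have : Nonempty (Σ n : ℕ, Fin n → D) := ⟨⟨0, Fin.elim0⟩⟩
  obtain ⟨e, he⟩ := exists_surjective_nat (Σ n : ℕ, Fin n → D)
  letI := metrizableSpaceMetric (ℕ → ℝ)
  refine no_inj h hc hm (Z := ℕ → ℝ) (j := fun x k => (Φ x).1 ⟨(e k).1, fun i => (e k).2 i⟩)
    (continuous_pi fun k => (continuous_apply _).comp
      (continuous_subtype_val.comp hΦ.continuous)) fun x y hxy => hΦ.injective ?_
  refine ext_dense hD fun n z hz => ?_
  obtain ⟨k, hk⟩ := he ⟨n, fun i => ⟨z i, hz i⟩⟩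
  have : (Φ x).1 ⟨(e k).1, fun i => (e k).2 i⟩ = (Φ y).1 ⟨(e k).1, fun i => (e k).2 i⟩ :=
    congrFun hxy k
  rw [hk] at this
  exact this

end Pool.Agent.H.MP_713d40_gt
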